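import Mathlib
import Pool.Agent.H12.NearChain

set_option autoImplicit false

namespace Pool.Agent.Results.MP_053bca_co.AllAdmissible

/-- Every finite non-abelian group of odd order n has a chain of rank n - 1. -/
theorem result (G : Type*) [Group G] [Finite G] (hodd : Odd (Nat.card G))
    (hna : ∃ x y : G, x * y ≠ y * x) :
    ∃ θ : Equiv.Perm G, (Set.range (fun x : G => x * θ x)).ncard = Nat.card G - 1 := by
  obtain ⟨θ, b, h⟩ := Pool.Agent.H12.NearChain.main _ G rfl hodd hna
  refine ⟨θ, ?_⟩
  have : Set.range (fun x : G => x * θ x) = Set.univ \ {b} := by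
    ext y
    simpa using h y
  rw [this, Set.ncard_diff_singleton_of_mem (Set.mem_univ b), Set.ncard_univ]

end Pool.Agent.Results.MP_053bca_co.AllAdmissible
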